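import Pool.Agent.Q317.TJ.Red

/-!
# The auxiliary problems `D s f`, equivalent to `f`
-/

set_option autoImplicit false

namespace Pool.Agent.Q317.TJ

open Pool.Agent.H190R3.Wei

/-- The word function for `adj`. -/
def adjW (s : Bool) (σ : List ℕ) : List ℕ :=
  if σ.length < 2 then [] else
    (if σ.getD 0 0 = s.toNat then σ.getD 1 0 + 1 else 0) :: σ.drop 2

/-- The first two values are replaced by one number. -/
def adj (s : Bool) (u : ℕ → ℕ) : ℕ → ℕ :=
  tag (if u 0 = s.toNat then u 1 + 1 else 0) (fun n => u (n + 2))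

lemma isMachine_drop2 : IsMachine (fun σ : List ℕ => σ.drop 2) :=
  ⟨(Primrec.list_drop.comp (Primrec.const 2) Primrec.id).to_comp,
    fun a b h => by obtain ⟨t, rfl⟩ := h; rw [List.drop_append]; exact List.prefix_append _ _⟩

lemma init_two (u : ℕ → ℕ) (m : ℕ) :
    init u (m + 2) = u 0 :: u 1 :: init (fun n => u (n + 2)) m := by
  rw [init_succ, init_succ]

lemma maps_drop2 (u : ℕ → ℕ) : Maps (fun σ : List ℕ => σ.drop 2) u (fun n => u (n + 2)) := by
  refine ⟨fun m => ?_, fun n => ⟨n + 2, by simp⟩⟩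
  rcases m with _ | _ | m
  · rfl
  · rfl
  · rw [init_two]; simp

lemma isMachine_adjW (s : Bool) : IsMachine (adjW s) := by
  refine ⟨?_, ?_⟩
  · have h0 : Primrec (fun σ : List ℕ => decide (σ.length < 2)) :=
      (PrimrecRel.comp Primrec.nat_lt Primrec.list_length (Primrec.const 2)).decide
    have h1 : Primrec (fun σ : List ℕ => decide (σ.getD 0 0 = s.toNat)) :=
      (PrimrecRel.comp Primrec.eq ((Primrec.list_getD 0).comp Primrec.id (Primrec.const 0))
        (Primrec.const s.toNat)).decide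
    have h2 : Primrec (fun σ : List ℕ => σ.getD 1 0 + 1) :=
      Primrec.succ.comp ((Primrec.list_getD 0).comp Primrec.id (Primrec.const 1))
    have h3 : Primrec (fun σ : List ℕ => σ.drop 2) :=
      Primrec.list_drop.comp (Primrec.const 2) Primrec.id
    refine ((Primrec.cond h0 (Primrec.const []) (Primrec.list_cons.comp
      (Primrec.cond h1 h2 (Primrec.const 0)) h3)).to_comp).of_eq fun σ => ?_
    unfold adjW
    by_cases h : σ.length < 2 <;> by_cases h' : σ.getD 0 0 = s.toNat <;> simp [h, h']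
  · intro a b h
    unfold adjW
    by_cases ha : a.length < 2
    · rw [if_pos ha]; exact List.nil_prefix
    · have hl := h.length_le
      have hb : ¬ b.length < 2 := by omega
      rw [if_neg ha, if_neg hb, getD_of_isPrefix h 0 0 (by omega),
        getD_of_isPrefix h 1 0 (by omega)]
      obtain ⟨t, ht⟩ := isMachine_drop2.mono _ _ h
      exact ⟨t, by simp [← ht]⟩

lemma maps_adjW (s : Bool) (u : ℕ → ℕ) : Maps (adjW s) u (adj s u) := by
  have key : ∀ m, adjW s (init u (m + 2)) = init (adj s u) (m + 1) := by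
    intro m
    rw [init_two, adj, init_tag]
    simp [adjW]
  refine ⟨fun m => ?_, fun n => ⟨n + 2, by rw [key]; simp⟩⟩
  rcases m with _ | _ | m
  · simp [adjW, init]
  · simp [adjW, init]
  · rw [key]; simp

/-- The auxiliary problem: an instance `((ρ, ω), 0 … 0 (d + 1) x)` asks for `d` followed by a
solution of the instance `x` of `f` if `d` has the parity `s`. Otherwise it is answered with the
help of the functionals with the codes `ρ`, `ω`. -/
def D (s : Bool) (f : Problem) : Problem where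
  sol r := {w | ∃ ρ ω m d x, r = pair (pair ρ ω) (del m d x) ∧
    ((d % 2 = s.toNat ∧ ∃ a ∈ f.sol x, w = tag d a) ∨
     (d % 2 ≠ s.toNat ∧ ∃ y, Maps evalM (pair ρ (pair r r)) y ∧
       (∀ b ∈ f.sol (half s y),
         ∃ u, Maps evalM (pair ω (pair (pair r r) (tag s.toNat b))) u) ∧
       ∃ b ∈ f.sol (half s y), ∃ u,
         Maps evalM (pair ω (pair (pair r r) (tag s.toNat b))) u ∧ w = adj s u))}

lemma mem_D {s : Bool} {f : Problem} {ρ ω x w : ℕ → ℕ} {m d : ℕ} :
    w ∈ (D s f).sol (pair (pair ρ ω) (del m d x)) ↔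
    ((d % 2 = s.toNat ∧ ∃ a ∈ f.sol x, w = tag d a) ∨
     (d % 2 ≠ s.toNat ∧ ∃ y, Maps evalM (pair ρ (pair (pair (pair ρ ω) (del m d x))
         (pair (pair ρ ω) (del m d x)))) y ∧
       (∀ b ∈ f.sol (half s y),
         ∃ u, Maps evalM (pair ω (pair (pair (pair (pair ρ ω) (del m d x))
         (pair (pair ρ ω) (del m d x))) (tag s.toNat b))) u) ∧
       ∃ b ∈ f.sol (half s y), ∃ u,
         Maps evalM (pair ω (pair (pair (pair (pair ρ ω) (del m d x))
         (pair (pair ρ ω) (del m d x))) (tag s.toNat b))) u ∧ w = adj s u)) := by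
  constructor
  · rintro ⟨ρ', ω', m', d', x', he, h⟩
    obtain ⟨h1, h2⟩ := pair_inj he
    obtain ⟨rfl, rfl⟩ := pair_inj h1
    have h3 : tag d x = tag d' x' := by
      have := maps_und m d x
      rw [h2] at this
      exact this.unique (maps_und m' d' x')
    obtain ⟨rfl, rfl⟩ := tag_inj h3
    exact h
  · intro h
    exact ⟨ρ, ω, m, d, x, rfl, h⟩

lemma computable_odd (s : Bool) : Computable (fun q : ℕ × List ℕ => decide (q.1 % 2 = s.toNat)) :=
  ((PrimrecRel.comp Primrec.eq (Primrec.nat_mod.comp Primrec.fst (Primrec.const 2))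
    (Primrec.const s.toNat)).decide).to_comp

lemma D_le (s : Bool) (f : Problem) : WLe (D s f) f := by
  have mev := isMachine_ev
  have mod' := isMachine_od
  have mee : IsMachine (fun σ => ev (ev σ)) := mev.comp' mev
  have moe : IsMachine (fun σ => od (ev σ)) := mod'.comp' mev
  have moee : IsMachine (fun σ => od (ev (ev σ))) := mod'.comp' mee
  have mdup : IsMachine (fun σ => pr σ σ) := isMachine_id.pr isMachine_id
  have mdupe : IsMachine (fun σ => pr (ev σ) (ev σ)) := mev.pr mev
  have mu : IsMachine (fun σ => und (od σ)) := isMachine_und.comp' mod'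
  have mue : IsMachine (fun σ => und (od (ev σ))) := isMachine_und.comp' moe
  have m1 : IsMachine (fun σ => (und (od σ)).tail) := isMachine_tail mu
  have m2 : IsMachine (fun σ => halfW s (evalM (pr (ev (ev σ)) (pr σ σ)))) :=
    (isMachine_halfW s).comp' (isMachine_evalM.comp' (mee.pr mdup))
  have mt : IsMachine (fun σ => s.toNat :: od σ) := isMachine_cons _ mod'
  have m3 : IsMachine (fun σ => pr (pr (ev σ) (ev σ)) (s.toNat :: od σ)) := mdupe.pr mt
  have m4 : IsMachine (fun σ => adjW s (evalM (pr (od (ev (ev σ)))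
      (pr (pr (ev σ) (ev σ)) (s.toNat :: od σ))))) :=
    (isMachine_adjW s).comp' (isMachine_evalM.comp' (moee.pr m3))
  set F1 : ℕ → List ℕ → List ℕ := fun d σ => bif decide (d % 2 = s.toNat) then
    (und (od σ)).tail else halfW s (evalM (pr (ev (ev σ)) (pr σ σ))) with hF1
  set F2 : ℕ → List ℕ → List ℕ := fun d σ => bif decide (d % 2 = s.toNat) then
    d :: od σ else adjW s (evalM (pr (od (ev (ev σ)))
      (pr (pr (ev σ) (ev σ)) (s.toNat :: od σ)))) with hF2
  have c1 : Computable₂ F1 :=
    Computable.cond (computable_odd s) (m1.comp.comp Computable.snd) (m2.comp.comp Computable.snd)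
  have c2 : Computable₂ F2 :=
    Computable.cond (computable_odd s) ((Primrec.list_cons.to_comp).comp Computable.fst
      (mod'.comp.comp Computable.snd)) (m4.comp.comp Computable.snd)
  have o1 : ∀ d a b, a <+: b → F1 d a <+: F1 d b := by
    intro d a b hab
    by_cases hd : d % 2 = s.toNat
    · simp only [hF1, hd, decide_true, cond_true]; exact m1.mono _ _ hab
    · simp only [hF1, hd, decide_false, cond_false]; exact m2.mono _ _ hab
  have o2 : ∀ d a b, a <+: b → F2 d a <+: F2 d b := by
    intro d a b hab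
    by_cases hd : d % 2 = s.toNat
    · simp only [hF2, hd, decide_true, cond_true]
      exact (isMachine_cons d mod').mono _ _ hab
    · simp only [hF2, hd, decide_false, cond_false]; exact m4.mono _ _ hab
  refine ⟨caseM (fun σ => und (od σ)) F1, caseM (fun σ => und (od (ev σ))) F2,
    isMachine_caseM mu c1 o1, isMachine_caseM mue c2 o2, ?_⟩
  rintro r ⟨w, hw⟩
  obtain ⟨ρ, ω, m, d, x, rfl, h⟩ := id hw
  have k1 : Maps (fun σ => und (od σ)) (pair (pair ρ ω) (del m d x)) (tag d x) :=
    Maps.comp isMachine_und (maps_od _ _) (maps_und m d x)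
  have k2 : ∀ z, Maps (fun σ => und (od (ev σ))) (pair (pair (pair ρ ω) (del m d x)) z)
      (tag d x) := fun z =>
    Maps.comp isMachine_und (Maps.comp mod' (maps_ev _ _) (maps_od _ _)) (maps_und m d x)
  rcases h with ⟨hd, a, ha, -⟩ | ⟨hd, y, hy, hall, b, hb, -⟩
  · refine ⟨x, maps_caseM mu k1 o1 ?_, ⟨a, ha⟩, fun a' ha' => ⟨tag d a', ?_, ?_⟩⟩
    · have e : F1 (tag d x 0) = fun σ => (und (od σ)).tail := by
        funext σ; simp [hF1, tag, hd]
      rw [e]; exact maps_tail k1
    · exact mem_D.2 (Or.inl ⟨hd, a', ha', rfl⟩)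
    · refine maps_caseM mue (k2 a') o2 ?_
      have e : F2 (tag d x 0) = fun σ => d :: od σ := by
        funext σ; simp [hF2, tag, hd]
      rw [e]; exact maps_cons d (maps_od _ _)
  · refine ⟨half s y, maps_caseM mu k1 o1 ?_, ⟨b, hb⟩, fun b' hb' => ?_⟩
    · have e : F1 (tag d x 0) = fun σ => halfW s (evalM (pr (ev (ev σ)) (pr σ σ))) := by
        funext σ; simp [hF1, tag, hd]
      rw [e]
      refine Maps.comp (isMachine_halfW s) (Maps.comp isMachine_evalM (Maps.pr mee mdup ?_ ?_) hy)
        (maps_halfW s y)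
      · exact Maps.comp mev (maps_ev _ _) (maps_ev _ _)
      · exact Maps.pr isMachine_id isMachine_id (maps_id _) (maps_id _)
    · obtain ⟨u, hu⟩ := hall b' hb'
      refine ⟨adj s u, mem_D.2 (Or.inr ⟨hd, y, hy, hall, b', hb', u, hu, rfl⟩), ?_⟩
      refine maps_caseM mue (k2 b') o2 ?_
      have e : F2 (tag d x 0) = fun σ => adjW s (evalM (pr (od (ev (ev σ)))
          (pr (pr (ev σ) (ev σ)) (s.toNat :: od σ)))) := by
        funext σ; simp [hF2, tag, hd]
      rw [e]
      refine Maps.comp (isMachine_adjW s) (Maps.comp isMachine_evalM (Maps.pr moee m3 ?_ ?_) hu)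
        (maps_adjW s u)
      · exact Maps.comp mod' (Maps.comp mev (maps_ev _ _) (maps_ev _ _)) (maps_od _ _)
      · refine Maps.pr mdupe mt (Maps.pr mev mev (maps_ev _ _) (maps_ev _ _)) ?_
        exact maps_cons _ (maps_od _ _)

lemma le_D (s : Bool) (f : Problem) : WLe f (D s f) := by
  have hz : Computable (fun _ : ℕ => 0) := Computable.const 0
  have mz := isMachine_const hz
  refine ⟨fun σ => pr (pr (init (fun _ => 0) σ.length) (init (fun _ => 0) σ.length))
      (delW 0 s.toNat σ), fun σ => (od σ).tail,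
    (mz.pr mz).pr (isMachine_delW 0 s.toNat), isMachine_tail isMachine_od, ?_⟩
  intro x hx
  have hs : s.toNat % 2 = s.toNat := by cases s <;> rfl
  refine ⟨pair (pair (fun _ => 0) (fun _ => 0)) (del 0 s.toNat x),
    Maps.pr (mz.pr mz) (isMachine_delW 0 _) (Maps.pr mz mz (maps_const _ x) (maps_const _ x))
      (maps_delW 0 _ x), ?_, ?_⟩
  · obtain ⟨a, ha⟩ := hx
    exact ⟨_, mem_D.2 (Or.inl ⟨hs, a, ha, rfl⟩)⟩
  · intro w hw
    rcases mem_D.1 hw with ⟨-, a, ha, rfl⟩ | ⟨hd, -⟩
    · exact ⟨a, ha, maps_tail (maps_od _ _)⟩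
    · exact absurd hs hd

end Pool.Agent.Q317.TJ
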