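import Pool.Agent.Q317.TJ.Aid

/-!
# The main argument
-/

set_option autoImplicit false

namespace Pool.Agent.Q317.TJ

open Pool.Agent.H190R3.Wei

lemma init_congr_lt {x y : ℕ → ℕ} {m : ℕ} (h : ∀ n < m, x n = y n) : init x m = init y m := by
  unfold init
  apply List.map_congr_left
  intro i hi
  exact h i (List.mem_range.1 hi)

lemma pair_congr_lt {a a' b b' : ℕ → ℕ} {m : ℕ} (h1 : ∀ n < m, a n = a' n)
    (h2 : ∀ n < m, b n = b' n) : ∀ n < m, pair a b n = pair a' b' n := by
  intro n hn
  unfold pair
  rw [h1 (n / 2) (by omega), h2 (n / 2) (by omega)]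

/-- A word function with at least two letters of output on a common initial segment. -/
lemma Maps.two {φ : List ℕ → List ℕ} {x x' u u' : ℕ → ℕ} {m : ℕ} (h : Maps φ x u)
    (h' : Maps φ x' u') (he : init x m = init x' m) (hm : 2 ≤ (φ (init x m)).length) :
    u 0 = u' 0 ∧ u 1 = u' 1 := by
  have h1 := h.1 m
  have h2 := h'.1 m
  rw [← he] at h2
  have h3 : init u (φ (init x m)).length = init u' (φ (init x m)).length := h1.symm.trans h2
  have g : ∀ i < (φ (init x m)).length, u i = u' i := by
    intro i hi
    have e1 := init_getD u _ i 0 hi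
    have e2 := init_getD u' _ i 0 hi
    rw [← e1, ← e2, h3]
  exact ⟨g 0 (by omega), g 1 (by omega)⟩

variable (F : Bool → Problem)

/-- The auxiliary problems of a family. -/
def P (s : Bool) : Problem := tot (D s (F s))

/-- The main argument. -/
theorem core {h0 : Problem} (hh : WLe h0 (meet (F false) (F true)))
    (hred : WLe (meet (tot (D false (F false))) (tot (D true (F true)))) (tot h0)) :
    ∃ s : Bool, WLe (F s) (F (!s)) := by
  obtain ⟨Φ, Ψ, hΦ, hΨ, r1⟩ := hh
  obtain ⟨K, H, hK, hH, r2⟩ := hred
  set G : Bool → Problem := fun s => tot (D s (F s)) with hG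
  change Red K H (meet (G false) (G true)) (tot h0) at r2
  have mev := isMachine_ev
  have mod' := isMachine_od
  -- the two functionals and their codes
  set R : List ℕ → List ℕ := fun σ => Φ (K σ) with hR
  set W : List ℕ → List ℕ := fun σ => H (pr (ev σ) (Ψ (pr (K (ev σ)) (od σ)))) with hW
  have mR : IsMachine R := hΦ.comp' hK
  have mKe : IsMachine (fun σ => K (ev σ)) := hK.comp' mev
  have mΨ : IsMachine (fun σ => Ψ (pr (K (ev σ)) (od σ))) := hΨ.comp' (mKe.pr mod')
  have mW : IsMachine W := hH.comp' (mev.pr mΨ)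
  set κ : ℕ → ℕ := pair (code R) (code W) with hκ
  have cκ : Computable κ := computable_pair (computable_code mR.comp) (computable_code mW.comp)
  have domG : ∀ r, ((meet (G false) (G true)).sol (pair r r)).Nonempty := by
    intro r
    exact meet_dom.2 (fun s => tot_nonempty _ _)
  have half_dup : ∀ (s : Bool) (r : ℕ → ℕ), half s (pair r r) = r := by
    intro s r
    have := half_pair s (fun _ => r)
    exact this
  -- the silent instance
  set r0 : ℕ → ℕ := pair κ (fun _ => 0) with hr0
  obtain ⟨y0, hy0, hn0, k0⟩ := r2 (pair r0 r0) (domG r0)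
  obtain ⟨w0, hw0⟩ := hn0
  obtain ⟨u0, hu0, hm0⟩ := k0 w0 hw0
  obtain ⟨-, s, a0, -, hua⟩ := mem_meet.1 hu0
  obtain ⟨M, hM⟩ := hm0.2 2
  -- the delayed instances
  set d : ℕ := 2 * (u0 1 + 1) + s.toNat with hd
  have hd2 : d % 2 = s.toNat := by
    have : s.toNat < 2 := by cases s <;> simp
    omega
  have hds : d % 2 ≠ (!s).toNat := by
    rw [hd2]; cases s <;> simp
  have hu00 : u0 0 = s.toNat := by rw [hua]; simp [tag]
  have main : ∀ x, ((F s).sol x).Nonempty → ∃ t,
      Maps R (pair (pair κ (del M d x)) (pair κ (del M d x))) t ∧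
      ((F (!s)).sol (half (!s) t)).Nonempty ∧
      ∀ b ∈ (F (!s)).sol (half (!s) t), ∃ u,
        Maps W (pair (pair (pair κ (del M d x)) (pair κ (del M d x))) (tag (!s).toNat b)) u ∧
        (fun n => u (n + 2)) ∈ (F s).sol x := by
    intro x hx
    set r : ℕ → ℕ := pair κ (del M d x) with hr
    obtain ⟨y, hy, -, k⟩ := r2 (pair r r) (domG r)
    -- solutions of the side `s`
    have sideS : ∀ a ∈ (G s).sol r, ∃ a' ∈ (F s).sol x, a = tag d a' := by
      intro a ha
      have hne : ((D s (F s)).sol r).Nonempty := by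
        obtain ⟨a', ha'⟩ := hx
        exact ⟨_, mem_D.2 (Or.inl ⟨hd2, a', ha', rfl⟩)⟩
      rcases mem_D.1 (ha hne) with ⟨-, h⟩ | ⟨h, -⟩
      · exact h
      · exact absurd hd2 h
    -- the instance of `h0` is valid
    have hval : (h0.sol y).Nonempty := by
      by_contra hcon
      have hw : w0 ∈ (tot h0).sol y := fun h => absurd h hcon
      obtain ⟨u, hu, hm⟩ := k w0 hw
      have e0 : ∀ n < M, pair (pair r0 r0) w0 n = pair (pair r r) w0 n := by
        have e1 : ∀ n < M, r0 n = r n := by
          refine pair_congr_lt (fun n _ => rfl) (fun n hn => ?_)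
          simp [del, hn]
        exact pair_congr_lt (pair_congr_lt e1 e1) (fun n _ => rfl)
      obtain ⟨g1, g2⟩ := Maps.two hm0 hm (init_congr_lt e0) hM
      obtain ⟨-, s', a, ha, hut⟩ := mem_meet.1 hu
      have hss : s' = s := by
        have : s'.toNat = s.toNat := by
          rw [← hu00, g1, hut]; simp [tag]
        revert this; cases s <;> cases s' <;> simp
      subst hss
      rw [half_dup] at ha
      obtain ⟨a', -, rfl⟩ := sideS a ha
      have : u 1 = d := by rw [hut]; simp [tag]
      rw [← g2] at this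
      omega
    obtain ⟨t, ht, htn, kt⟩ := r1 y hval
    have hRt : Maps R (pair r r) t := Maps.comp hΦ hy ht
    have hdom := meet_dom.1 htn
    have hWu : ∀ b ∈ (F (!s)).sol (half (!s) t), ∃ u ∈ (meet (G false) (G true)).sol (pair r r),
        Maps W (pair (pair r r) (tag (!s).toNat b)) u := by
      intro b hb
      obtain ⟨w, hw, hwm⟩ := kt (tag (!s).toNat b) (mem_meet.2 ⟨hdom, !s, b, hb, rfl⟩)
      obtain ⟨u, hu, hum⟩ := k w (fun _ => hw)
      refine ⟨u, hu, ?_⟩
      refine Maps.comp hH (Maps.pr mev mΨ (maps_ev _ _) ?_) hum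
      refine Maps.comp hΨ (Maps.pr mKe mod' ?_ (maps_od _ _)) hwm
      exact Maps.comp hK (maps_ev _ _) hy
    -- solutions of the other side
    have sideT : ∀ a ∈ (G (!s)).sol r, ∃ b ∈ (F (!s)).sol (half (!s) t), ∃ u,
        Maps W (pair (pair r r) (tag (!s).toNat b)) u ∧ a = adj (!s) u := by
      intro a ha
      have hall : ∀ b ∈ (F (!s)).sol (half (!s) t), ∃ u,
          Maps evalM (pair (code W) (pair (pair r r) (tag (!s).toNat b))) u := by
        intro b hb
        obtain ⟨u, -, hu⟩ := hWu b hb
        exact ⟨u, maps_evalM hu⟩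
      have hne : ((D (!s) (F (!s))).sol r).Nonempty := by
        obtain ⟨b, hb⟩ := hdom (!s)
        obtain ⟨u, hu⟩ := hall b hb
        exact ⟨_, mem_D.2 (Or.inr ⟨hds, t, maps_evalM hRt, hall, b, hb, u, hu, rfl⟩)⟩
      rcases mem_D.1 (ha hne) with ⟨h, -⟩ | ⟨-, t', ht', -, b, hb, u, hu, rfl⟩
      · exact absurd h hds
      · have e1 : t' = t := ht'.unique (maps_evalM hRt)
        subst e1
        obtain ⟨u', -, hu'⟩ := hWu b hb
        have e2 : u = u' := hu.unique (maps_evalM hu')
        subst e2
        exact ⟨b, hb, u, hu', rfl⟩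
    -- the induction
    have ind : ∀ N : ℕ, ∀ b ∈ (F (!s)).sol (half (!s) t), ∀ u,
        Maps W (pair (pair r r) (tag (!s).toNat b)) u → adj (!s) u 0 = N →
        (fun n => u (n + 2)) ∈ (F s).sol x := by
      intro N
      induction N with
      | zero =>
        intro b hb u hu hN
        obtain ⟨u', hu', hm'⟩ := hWu b hb
        have e : u' = u := hm'.unique hu
        subst e
        obtain ⟨-, s', a, ha, hut⟩ := mem_meet.1 hu'
        rw [half_dup] at ha
        by_cases hs' : s' = s
        · subst hs'
          obtain ⟨a', ha', rfl⟩ := sideS a ha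
          have : (fun n => u' (n + 2)) = a' := by
            rw [hut]; funext n; simp [tag]
          rw [this]; exact ha'
        · exfalso
          have hs2 : s' = !s := by
            revert hs'; cases s <;> cases s' <;> simp
          subst hs2
          have h0 : u' 0 = (!s).toNat := by rw [hut]; simp [tag]
          simp [adj, tag, h0] at hN
      | succ N ih =>
        intro b hb u hu hN
        obtain ⟨u', hu', hm'⟩ := hWu b hb
        have e : u' = u := hm'.unique hu
        subst e
        obtain ⟨-, s', a, ha, hut⟩ := mem_meet.1 hu'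
        rw [half_dup] at ha
        by_cases hs' : s' = s
        · subst hs'
          obtain ⟨a', ha', rfl⟩ := sideS a ha
          have : (fun n => u' (n + 2)) = a' := by
            rw [hut]; funext n; simp [tag]
          rw [this]; exact ha'
        · have hs2 : s' = !s := by
            revert hs'; cases s <;> cases s' <;> simp
          subst hs2
          obtain ⟨b', hb', v, hv, rfl⟩ := sideT a ha
          have h0 : u' 0 = (!s).toNat := by rw [hut]; simp [tag]
          have h1 : u' 1 = adj (!s) v 0 := by rw [hut]; simp [tag]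
          have h2 : adj (!s) v 0 = N := by
            rw [← h1]
            simp [adj, tag, h0] at hN
            exact hN
          have h3 := ih b' hb' v hv h2
          have h4 : (fun n => u' (n + 2)) = fun n => v (n + 2) := by
            rw [hut]; funext n; simp [tag, adj]
          rw [h4]; exact h3
    refine ⟨t, hRt, hdom (!s), fun b hb => ?_⟩
    obtain ⟨u, -, hu⟩ := hWu b hb
    exact ⟨u, hu, ind _ b hb u hu rfl⟩
  -- the reduction
  have mc := isMachine_const cκ
  have mdel := isMachine_delW M d
  have mi : IsMachine (fun σ : List ℕ => pr (init κ σ.length) (delW M d σ)) := mc.pr mdel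
  have mI : IsMachine (fun σ : List ℕ => pr (pr (init κ σ.length) (delW M d σ))
      (pr (init κ σ.length) (delW M d σ))) := mi.pr mi
  have kI : ∀ x, Maps (fun σ : List ℕ => pr (pr (init κ σ.length) (delW M d σ))
      (pr (init κ σ.length) (delW M d σ))) x
      (pair (pair κ (del M d x)) (pair κ (del M d x))) := by
    intro x
    have h1 := Maps.pr mc mdel (maps_const κ x) (maps_delW M d x)
    exact Maps.pr mi mi h1 h1
  have mIe := mI.comp' mev
  have mt : IsMachine (fun σ => (!s).toNat :: od σ) := isMachine_cons _ mod'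
  refine ⟨s, fun σ => halfW (!s) (R (pr (pr (init κ σ.length) (delW M d σ))
      (pr (init κ σ.length) (delW M d σ)))),
    fun σ => (W (pr (pr (pr (init κ (ev σ).length) (delW M d (ev σ)))
      (pr (init κ (ev σ).length) (delW M d (ev σ)))) ((!s).toNat :: od σ))).drop 2,
    (isMachine_halfW _).comp' (mR.comp' mI),
    isMachine_drop2.comp' (mW.comp' (mIe.pr mt)), ?_⟩
  intro x hx
  obtain ⟨t, ht, htn, k⟩ := main x hx
  refine ⟨half (!s) t, Maps.comp (isMachine_halfW _) (Maps.comp mR (kI x) ht) (maps_halfW _ _),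
    htn, fun b hb => ?_⟩
  obtain ⟨u, hu, hux⟩ := k b hb
  refine ⟨_, hux, ?_⟩
  refine Maps.comp isMachine_drop2 (Maps.comp mW (Maps.pr mIe mt ?_ ?_) hu) (maps_drop2 u)
  · exact Maps.comp mI (maps_ev _ _) (kI x)
  · exact maps_cons _ (maps_od _ _)

end Pool.Agent.Q317.TJ
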