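import Pool.Agent.H190R3.WeiRed

/-!
# Totalization, meet and totalizing jump of Weihrauch problems
-/

set_option autoImplicit false

namespace Pool.Agent.Q317.TJ

open Pool.Agent.H190R3.Wei

/-- The totalization of `g`: outside of the domain of `g` every point is a solution. -/
def tot (g : Problem) : Problem where
  sol p := {q | (g.sol p).Nonempty → q ∈ g.sol p}

/-- The meet of `f` and `g`: for a pair of an instance `x` of `f` and an instance `z` of `g` one of
the two is to be solved. -/
def meet (f g : Problem) : Problem where
  sol r := {w | ∃ x z, r = pair x z ∧ (f.sol x).Nonempty ∧ (g.sol z).Nonempty ∧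
    ((∃ a ∈ f.sol x, w = tag 0 a) ∨ ∃ b ∈ g.sol z, w = tag 1 b)}

/-- `J` is of the largest degree of a totalization of a problem which is Weihrauch equivalent
to `f`. -/
structure IsTotJump (J f : Problem) : Prop where
  /-- the degree is attained -/
  attained : ∃ g, WLe g f ∧ WLe f g ∧ WLe J (tot g) ∧ WLe (tot g) J
  /-- it is the largest one -/
  largest : ∀ g, WLe g f → WLe f g → WLe (tot g) J

end Pool.Agent.Q317.TJ
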