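import Pool.Agent.Q317.TJ.Word
import Pool.Agent.Q317.TJ.Defs

/-!
# The reductions needed: universal problem, meets, the auxiliary problems
-/

set_option autoImplicit false

namespace Pool.Agent.Q317.TJ

open Pool.Agent.H190R3.Wei

lemma tot_nonempty (g : Problem) (p : ℕ → ℕ) : ((tot g).sol p).Nonempty := by
  by_cases h : (g.sol p).Nonempty
  · obtain ⟨q, hq⟩ := h
    exact ⟨q, fun _ => hq⟩
  · exact ⟨p, fun h' => absurd h' h⟩

lemma tag_inj {a b : ℕ} {x y : ℕ → ℕ} (h : tag a x = tag b y) : a = b ∧ x = y := by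
  refine ⟨by simpa [tag] using congrFun h 0, ?_⟩
  funext n
  simpa [tag] using congrFun h (n + 1)

lemma isMachine_tail {τ : List ℕ → List ℕ} (hτ : IsMachine τ) :
    IsMachine (fun σ => (τ σ).tail) :=
  ⟨(Primrec.list_tail.to_comp).comp hτ.comp, fun _ _ h => tail_mono (hτ.mono _ _ h)⟩

lemma maps_tail {τ : List ℕ → List ℕ} {x y : ℕ → ℕ} {b : ℕ} (h : Maps τ x (tag b y)) :
    Maps (fun σ => (τ σ).tail) x y := by
  refine ⟨fun m => ?_, fun n => ?_⟩
  · show (τ (init x m)).tail = init y (τ (init x m)).tail.length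
    have h1 := h.1 m
    cases hl : (τ (init x m)).length with
    | zero =>
      have : τ (init x m) = [] := List.eq_nil_of_length_eq_zero hl
      rw [this]; rfl
    | succ k => rw [hl] at h1; rw [h1, init_tag]; simp
  · obtain ⟨m, hm⟩ := h.2 (n + 1)
    exact ⟨m, by simp only [List.length_tail]; omega⟩

lemma computable_pair {α β : ℕ → ℕ} (hα : Computable α) (hβ : Computable β) :
    Computable (pair α β) := by
  have h1 : Computable (fun x : ℕ => decide (x % 2 = 0)) :=
    ((PrimrecRel.comp Primrec.eq (Primrec.nat_mod.comp Primrec.id (Primrec.const 2))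
      (Primrec.const 0)).decide).to_comp
  have h2 : Computable (fun x : ℕ => x / 2) :=
    (Primrec.nat_div.comp Primrec.id (Primrec.const 2)).to_comp
  refine (Computable.cond h1 (hα.comp h2) (hβ.comp h2)).of_eq fun x => ?_
  by_cases h : x % 2 = 0 <;> simp [pair, h]

/-! ### halves -/

/-- The even places (`false`) or the odd places (`true`). -/
def half (s : Bool) (y : ℕ → ℕ) : ℕ → ℕ := fun n => y (2 * n + s.toNat)

/-- The word function for `half`. -/
def halfW (s : Bool) : List ℕ → List ℕ := bif s then od else ev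

lemma pair_half (y : ℕ → ℕ) : pair (half false y) (half true y) = y := by
  funext n
  unfold pair half
  split_ifs with h
  · congr 1; simp; omega
  · congr 1; simp; omega

lemma isMachine_halfW (s : Bool) : IsMachine (halfW s) := by
  cases s
  · exact isMachine_ev
  · exact isMachine_od

lemma maps_halfW (s : Bool) (y : ℕ → ℕ) : Maps (halfW s) y (half s y) := by
  conv_lhs => rw [← pair_half y]
  cases s
  · exact maps_ev _ _
  · exact maps_od _ _

lemma half_pair (s : Bool) (x : Bool → ℕ → ℕ) : half s (pair (x false) (x true)) = x s := by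
  have h := maps_halfW s (pair (x false) (x true))
  cases s
  · exact h.unique (maps_ev _ _)
  · exact h.unique (maps_od _ _)

/-! ### the meet, in terms of families -/

/-- the meet of a family indexed by `Bool` -/
lemma mem_meet {F : Bool → Problem} {r w : ℕ → ℕ} :
    w ∈ (meet (F false) (F true)).sol r ↔
      (∀ s, ((F s).sol (half s r)).Nonempty) ∧ ∃ s : Bool, ∃ a ∈ (F s).sol (half s r),
        w = tag s.toNat a := by
  constructor
  · rintro ⟨x, z, rfl, hx, hz, h⟩
    have e0 : half false (pair x z) = x := half_pair false (fun s => bif s then z else x)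
    have e1 : half true (pair x z) = z := half_pair true (fun s => bif s then z else x)
    refine ⟨?_, ?_⟩
    · intro s
      cases s
      · rw [e0]; exact hx
      · rw [e1]; exact hz
    · rcases h with ⟨a, ha, rfl⟩ | ⟨b, hb, rfl⟩
      · exact ⟨false, a, by rw [e0]; exact ha, rfl⟩
      · exact ⟨true, b, by rw [e1]; exact hb, rfl⟩
  · rintro ⟨h, s, a, ha, rfl⟩
    refine ⟨half false r, half true r, (pair_half r).symm, h false, h true, ?_⟩
    cases s
    · exact Or.inl ⟨a, ha, rfl⟩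
    · exact Or.inr ⟨a, ha, rfl⟩

lemma meet_dom {F : Bool → Problem} {r : ℕ → ℕ} :
    ((meet (F false) (F true)).sol r).Nonempty ↔ ∀ s, ((F s).sol (half s r)).Nonempty := by
  constructor
  · rintro ⟨w, hw⟩
    exact (mem_meet.1 hw).1
  · intro h
    obtain ⟨a, ha⟩ := h false
    exact ⟨_, mem_meet.2 ⟨h, false, a, ha, rfl⟩⟩

/-- The meet is monotone. -/
lemma meet_mono {f f' g g' : Problem} (h1 : WLe f f') (h2 : WLe g g') :
    WLe (meet f g) (meet f' g') := by
  obtain ⟨φ1, ψ1, hφ1, hψ1, r1⟩ := h1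
  obtain ⟨φ2, ψ2, hφ2, hψ2, r2⟩ := h2
  have mev := isMachine_ev
  have mod' := isMachine_od
  have mt : IsMachine (fun σ => (od σ).tail) := isMachine_tail isMachine_od
  have mee : IsMachine (fun σ => ev (ev σ)) := mev.comp' mev
  have moe : IsMachine (fun σ => od (ev σ)) := mod'.comp' mev
  have mA : IsMachine (fun σ => 0 :: ψ1 (pr (ev (ev σ)) (od σ).tail)) :=
    isMachine_cons 0 (hψ1.comp' (mee.pr mt))
  have mB : IsMachine (fun σ => 1 :: ψ2 (pr (od (ev σ)) (od σ).tail)) :=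
    isMachine_cons 1 (hψ2.comp' (moe.pr mt))
  set F : ℕ → List ℕ → List ℕ := fun d σ => bif decide (d = 0) then
    0 :: ψ1 (pr (ev (ev σ)) (od σ).tail) else 1 :: ψ2 (pr (od (ev σ)) (od σ).tail) with hF
  have hFc : Computable₂ F := by
    have h0 : Computable (fun q : ℕ × List ℕ => decide (q.1 = 0)) :=
      ((PrimrecRel.comp Primrec.eq Primrec.fst (Primrec.const 0)).decide).to_comp
    exact Computable.cond h0 (mA.comp.comp Computable.snd) (mB.comp.comp Computable.snd)
  have hFm : ∀ d a b, a <+: b → F d a <+: F d b := by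
    intro d a b hab
    by_cases hd : d = 0
    · simp only [hF, hd, decide_true, cond_true]; exact mA.mono _ _ hab
    · simp only [hF, hd, decide_false, cond_false]; exact mB.mono _ _ hab
  refine ⟨fun σ => pr (φ1 (ev σ)) (φ2 (od σ)), caseM od F, (hφ1.comp' mev).pr (hφ2.comp' mod'),
    isMachine_caseM isMachine_od hFc hFm, ?_⟩
  rintro r ⟨w, x, z, rfl, hx, hz, -⟩
  obtain ⟨y1, hy1, hf1, k1⟩ := r1 x hx
  obtain ⟨y2, hy2, hf2, k2⟩ := r2 z hz
  refine ⟨pair y1 y2, Maps.pr (hφ1.comp' mev) (hφ2.comp' mod') (Maps.comp hφ1 (maps_ev x z) hy1)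
    (Maps.comp hφ2 (maps_od x z) hy2), ?_, ?_⟩
  · obtain ⟨a, ha⟩ := hf1
    exact ⟨_, y1, y2, rfl, ⟨a, ha⟩, hf2, Or.inl ⟨a, ha, rfl⟩⟩
  · rintro q ⟨y1', y2', he, -, -, hq⟩
    obtain ⟨rfl, rfl⟩ := pair_inj he
    rcases hq with ⟨a, ha, rfl⟩ | ⟨b, hb, rfl⟩
    · obtain ⟨w', hw', hm⟩ := k1 a ha
      refine ⟨tag 0 w', ⟨x, z, rfl, hx, hz, Or.inl ⟨w', hw', rfl⟩⟩, ?_⟩
      refine maps_caseM isMachine_od (maps_od _ _) hFm ?_
      have e : F (tag 0 a 0) = fun σ => 0 :: ψ1 (pr (ev (ev σ)) (od σ).tail) := by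
        funext σ; simp [hF, tag]
      rw [e]
      refine maps_cons 0 (Maps.comp hψ1 (Maps.pr mee mt ?_ (maps_tail (maps_od _ _))) hm)
      exact Maps.comp mev (maps_ev _ _) (maps_ev _ _)
    · obtain ⟨w', hw', hm⟩ := k2 b hb
      refine ⟨tag 1 w', ⟨x, z, rfl, hx, hz, Or.inr ⟨w', hw', rfl⟩⟩, ?_⟩
      refine maps_caseM isMachine_od (maps_od _ _) hFm ?_
      have e : F (tag 1 b 0) = fun σ => 1 :: ψ2 (pr (od (ev σ)) (od σ).tail) := by
        funext σ; simp [hF, tag]
      rw [e]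
      refine maps_cons 1 (Maps.comp hψ2 (Maps.pr moe mt ?_ (maps_tail (maps_od _ _))) hm)
      exact Maps.comp mod' (maps_ev _ _) (maps_od _ _)

/-! ### the universal problem -/

/-- The universal problem of the degree of `f`. -/
def univ (f : Problem) : Problem where
  sol r := {w | ∃ ρ ω p, r = pair (pair ρ ω) p ∧ ∃ y, Maps evalM (pair ρ p) y ∧
    (∀ a ∈ f.sol y, ∃ v, Maps evalM (pair ω (pair p a)) v) ∧
    ∃ a ∈ f.sol y, Maps evalM (pair ω (pair p a)) w}

lemma univ_le (f : Problem) : WLe (univ f) f := by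
  have mev := isMachine_ev
  have mod' := isMachine_od
  have mee : IsMachine (fun σ => ev (ev σ)) := mev.comp' mev
  have moe : IsMachine (fun σ => od (ev σ)) := mod'.comp' mev
  have moee : IsMachine (fun σ => od (ev (ev σ))) := mod'.comp' mee
  have mpoo : IsMachine (fun σ => pr (od (ev σ)) (od σ)) := moe.pr mod'
  refine ⟨fun σ => evalM (pr (ev (ev σ)) (od σ)),
    fun σ => evalM (pr (od (ev (ev σ))) (pr (od (ev σ)) (od σ))),
    isMachine_evalM.comp' (mee.pr mod'), isMachine_evalM.comp' (moee.pr mpoo), ?_⟩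
  rintro r ⟨w, ρ, ω, p, rfl, y, hy, hall, a0, ha0, -⟩
  refine ⟨y, ?_, ⟨a0, ha0⟩, fun a ha => ?_⟩
  · refine Maps.comp isMachine_evalM (Maps.pr mee mod' ?_ (maps_od _ _)) hy
    exact Maps.comp mev (maps_ev _ _) (maps_ev _ _)
  · obtain ⟨v, hv⟩ := hall a ha
    refine ⟨v, ⟨ρ, ω, p, rfl, y, hy, hall, a, ha, hv⟩, ?_⟩
    refine Maps.comp isMachine_evalM (Maps.pr moee mpoo ?_ (Maps.pr moe mod' ?_ (maps_od _ _))) hv
    · exact Maps.comp mod' (Maps.comp mev (maps_ev _ _) (maps_ev _ _)) (maps_od _ _)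
    · exact Maps.comp mod' (maps_ev _ _) (maps_od _ _)

lemma lift_univ {g f : Problem} (h : WLe g f) : ∃ κ : ℕ → ℕ, Computable κ ∧
    ∀ p, (g.sol p).Nonempty → ((univ f).sol (pair κ p)).Nonempty ∧
      ∀ w ∈ (univ f).sol (pair κ p), w ∈ g.sol p := by
  obtain ⟨φ, ψ, hφ, hψ, r⟩ := h
  refine ⟨pair (code φ) (code ψ), computable_pair (computable_code hφ.comp)
    (computable_code hψ.comp), fun p hp => ?_⟩
  obtain ⟨y, hy, ⟨a0, ha0⟩, k⟩ := r p hp
  have hall : ∀ a ∈ f.sol y, ∃ v, Maps evalM (pair (code ψ) (pair p a)) v := by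
    intro a ha
    obtain ⟨w, -, hw⟩ := k a ha
    exact ⟨w, maps_evalM hw⟩
  refine ⟨?_, ?_⟩
  · obtain ⟨v, hv⟩ := hall a0 ha0
    exact ⟨v, _, _, _, rfl, y, maps_evalM hy, hall, a0, ha0, hv⟩
  · rintro w ⟨ρ, ω, p', he, y', hy', -, a, ha, hw⟩
    obtain ⟨he1, rfl⟩ := pair_inj he
    obtain ⟨rfl, rfl⟩ := pair_inj he1
    have e1 : y' = y := hy'.unique (maps_evalM hy)
    subst e1
    obtain ⟨w', hw', hm⟩ := k a ha
    have e2 : w = w' := hw.unique (maps_evalM hm)
    rw [e2]; exact hw'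

lemma tot_le_univ {g f : Problem} (h : WLe g f) : WLe (tot g) (tot (univ f)) := by
  obtain ⟨κ, hκ, hk⟩ := lift_univ h
  have mc := isMachine_const hκ
  refine ⟨fun σ => pr (init κ σ.length) σ, od, mc.pr isMachine_id, isMachine_od, ?_⟩
  intro p _
  refine ⟨pair κ p, Maps.pr mc isMachine_id (maps_const κ p) (maps_id p), tot_nonempty _ _, ?_⟩
  intro w hw
  refine ⟨w, fun hp => ?_, maps_od _ _⟩
  obtain ⟨h1, h2⟩ := hk p hp
  exact h2 w (hw h1)

lemma le_univ (f : Problem) : WLe f (univ f) := by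
  obtain ⟨κ, hκ, hk⟩ := lift_univ (WLe.refl f)
  have mc := isMachine_const hκ
  refine ⟨fun σ => pr (init κ σ.length) σ, od, mc.pr isMachine_id, isMachine_od, ?_⟩
  intro p hp
  obtain ⟨h1, h2⟩ := hk p hp
  exact ⟨pair κ p, Maps.pr mc isMachine_id (maps_const κ p) (maps_id p), h1,
    fun w hw => ⟨w, h2 w hw, maps_od _ _⟩⟩

/-- Every problem has a totalizing jump. -/
theorem exists_totJump (f : Problem) : IsTotJump (tot (univ f)) f :=
  ⟨⟨univ f, univ_le f, le_univ f, WLe.refl _, WLe.refl _⟩, fun _ h _ => tot_le_univ h⟩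

end Pool.Agent.Q317.TJ
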