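import Mathlib
import Pool.Agent.H190R3.WeiRed

/-!
# Word functions: case distinction, delays, and a universal functional with real codes
-/

set_option autoImplicit false

namespace Pool.Agent.Q317.TJ

open Pool.Agent.H190R3.Wei

/-! ### case distinction on the first letter of a word function -/

/-- Case distinction on the first letter of `τ`. -/
def caseM (τ : List ℕ → List ℕ) (F : ℕ → List ℕ → List ℕ) (σ : List ℕ) : List ℕ :=
  if τ σ = [] then [] else F (τ σ).headI σ

lemma headI_mono {a b : List ℕ} (h : a <+: b) (ha : a ≠ []) : b ≠ [] ∧ b.headI = a.headI := by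
  obtain ⟨t, rfl⟩ := h
  cases a with
  | nil => exact absurd rfl ha
  | cons c l => exact ⟨by simp, rfl⟩

lemma isMachine_caseM {τ : List ℕ → List ℕ} {F : ℕ → List ℕ → List ℕ} (hτ : IsMachine τ)
    (hc : Computable₂ F) (hm : ∀ d a b, a <+: b → F d a <+: F d b) : IsMachine (caseM τ F) := by
  refine ⟨?_, ?_⟩
  · have h1 : Computable (fun σ : List ℕ => decide (τ σ = [])) :=
      (PrimrecPred.decide (Primrec.eq (α := List ℕ)) |>.to_comp).comp
        (hτ.comp.pair (Computable.const []))
    have h2 : Computable (fun σ : List ℕ => F (τ σ).headI σ) :=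
      hc.comp (Primrec.list_headI.to_comp.comp hτ.comp) Computable.id
    refine (Computable.cond h1 (Computable.const []) h2).of_eq ?_
    intro σ
    unfold caseM
    by_cases h : τ σ = [] <;> simp [h]
  · intro a b hab
    unfold caseM
    by_cases h : τ a = []
    · rw [if_pos h]; exact List.nil_prefix
    · have h1 := headI_mono (hτ.mono _ _ hab) h
      rw [if_neg h, if_neg h1.1, h1.2]
      exact hm _ _ _ hab

lemma Maps.headI {τ : List ℕ → List ℕ} {x t : ℕ → ℕ} (h : Maps τ x t) (m : ℕ)
    (hm : τ (init x m) ≠ []) : (τ (init x m)).headI = t 0 := by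
  have h1 := h.1 m
  obtain ⟨k, hk⟩ := Nat.exists_eq_succ_of_ne_zero
    (fun h0 => hm (List.eq_nil_of_length_eq_zero h0))
  rw [hk, init_succ] at h1
  rw [h1]; rfl

lemma maps_caseM {τ : List ℕ → List ℕ} {F : ℕ → List ℕ → List ℕ} (hτ : IsMachine τ)
    {x t y : ℕ → ℕ} (h1 : Maps τ x t) (hm : ∀ d a b, a <+: b → F d a <+: F d b)
    (h2 : Maps (F (t 0)) x y) : Maps (caseM τ F) x y := by
  refine ⟨fun m => ?_, fun n => ?_⟩
  · unfold caseM
    by_cases h : τ (init x m) = []
    · rw [if_pos h]; rfl
    · rw [if_neg h, Maps.headI h1 m h]; exact h2.1 m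
  · obtain ⟨m1, hm1⟩ := h1.2 1
    obtain ⟨m2, hm2⟩ := h2.2 n
    refine ⟨max m1 m2, ?_⟩
    have e1 : 1 ≤ (τ (init x (max m1 m2))).length :=
      hm1.trans (hτ.mono _ _ (init_prefix_iff_le (le_max_left m1 m2))).length_le
    have e2 : τ (init x (max m1 m2)) ≠ [] := by
      intro h0; rw [h0] at e1; simp at e1
    unfold caseM
    rw [if_neg e2, Maps.headI h1 _ e2]
    exact hm2.trans (hm _ _ _ (init_prefix_iff_le (le_max_right m1 m2))).length_le

lemma take_init (x : ℕ → ℕ) {k n : ℕ} (h : k ≤ n) : (init x n).take k = init x k := by
  obtain ⟨t, ht⟩ := init_prefix_iff_le (x := x) h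
  rw [← ht]
  exact List.take_left' (by simp)

/-! ### computable constants -/

lemma computable_init {α : ℕ → ℕ} (hα : Computable α) : Computable (fun n => init α n) := by
  have h : Computable₂ (fun (_ : ℕ) (p : ℕ × List ℕ) => p.2 ++ [α p.1]) :=
    (Primrec.list_concat.to_comp).comp (Computable.snd.comp Computable.snd)
      (hα.comp (Computable.fst.comp Computable.snd))
  have h2 := Computable.nat_rec Computable.id (Computable.const ([] : List ℕ)) h
  refine h2.of_eq fun n => ?_
  show Nat.rec (motive := fun _ => List ℕ) [] (fun i l => l ++ [α i]) n = init α n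
  induction n with
  | zero => rfl
  | succ n ih =>
    have h1 : init α (n + 1) = init α n ++ [α n] := by
      unfold init; rw [List.range_succ, List.map_append]; rfl
    rw [h1, ← ih]

lemma isMachine_const {α : ℕ → ℕ} (hα : Computable α) :
    IsMachine (fun σ : List ℕ => init α σ.length) :=
  ⟨(computable_init hα).comp Computable.list_length, fun _ _ h => init_prefix_iff_le h.length_le⟩

lemma maps_const (α x : ℕ → ℕ) : Maps (fun σ : List ℕ => init α σ.length) x α :=
  ⟨fun m => by simp, fun n => ⟨n, by simp⟩⟩

/-! ### delays -/

/-- The point `0, …, 0, d + 1, x 0, x 1, …` with `m` zeros in front. -/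
def del (m d : ℕ) (x : ℕ → ℕ) : ℕ → ℕ :=
  fun n => if n < m then 0 else if n = m then d + 1 else x (n - m - 1)

/-- The word function for `x ↦ del m d x`. -/
def delW (m d : ℕ) (σ : List ℕ) : List ℕ := List.replicate m 0 ++ (d + 1) :: σ

/-- The word function for `del m d x ↦ tag d x`. -/
def und (σ : List ℕ) : List ℕ := (σ.dropWhile (fun a => decide (a = 0))).modifyHead Nat.pred

lemma isMachine_delW (m d : ℕ) : IsMachine (delW m d) := by
  refine ⟨?_, fun a b h => ?_⟩
  · exact (Primrec.list_append.comp (Primrec.const _)
      (Primrec.list_cons.comp (Primrec.const (d + 1)) Primrec.id)).to_comp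
  · obtain ⟨t, rfl⟩ := h
    exact ⟨t, by simp [delW]⟩

lemma init_del (m d : ℕ) (x : ℕ → ℕ) (n : ℕ) :
    init (del m d x) (m + (n + 1)) = delW m d (init x n) := by
  unfold init delW
  rw [List.range_add, List.map_append]
  congr 1
  · apply List.ext_getElem
    · simp
    · intro i h1 h2
      simp only [List.length_map, List.length_range] at h1
      simp [del, h1]
  · rw [List.range_succ_eq_map]
    simp only [List.map_cons, List.map_map]
    congr 1
    · simp [del]
    · apply List.map_congr_left
      intro i _
      simp only [Function.comp_apply, del]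
      rw [if_neg (by omega), if_neg (by omega)]
      congr 1; omega

lemma init_del_le (m d : ℕ) (x : ℕ → ℕ) (n : ℕ) (h : n ≤ m) :
    init (del m d x) n = List.replicate n 0 := by
  apply List.ext_getElem
  · simp
  · intro i h1 h2
    simp only [length_init] at h1
    simp [init, del, show i < m by omega]

lemma maps_delW (m d : ℕ) (x : ℕ → ℕ) : Maps (delW m d) x (del m d x) := by
  refine ⟨fun n => ?_, fun n => ⟨n, by simp [delW]; omega⟩⟩
  have h1 : (delW m d (init x n)).length = m + (n + 1) := by simp [delW]
  rw [h1, init_del]

lemma isMachine_und : IsMachine und := by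
  refine ⟨?_, ?_⟩
  · have h1 : Primrec (fun a : ℕ => decide (a = 0)) :=
      (PrimrecRel.comp Primrec.eq Primrec.id (Primrec.const 0)).decide
    exact ((Primrec.list_modifyHead Primrec.pred).comp (Primrec.list_dropWhile h1)).to_comp
  · intro a b h
    obtain ⟨t, rfl⟩ := h
    unfold und
    rw [List.dropWhile_append]
    cases hd : a.dropWhile (fun a => decide (a = 0)) with
    | nil => simp
    | cons c l => simp

lemma dropWhile_replicate (m : ℕ) (l : List ℕ) :
    (List.replicate m 0 ++ l).dropWhile (fun a => decide (a = 0)) =
      l.dropWhile (fun a => decide (a = 0)) := by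
  induction m with
  | zero => rfl
  | succ m ih => rw [List.replicate_succ, List.cons_append, List.dropWhile_cons, if_pos (by simp), ih]

lemma maps_und (m d : ℕ) (x : ℕ → ℕ) : Maps und (del m d x) (tag d x) := by
  have key : ∀ n, und (init (del m d x) (m + (n + 1))) = init (tag d x) (n + 1) := by
    intro n
    rw [init_del, init_tag]
    unfold und delW
    rw [dropWhile_replicate]
    simp
  refine ⟨fun n => ?_, fun n => ⟨m + (n + 1), by rw [key]; simp⟩⟩
  by_cases h : n ≤ m
  · have h1 : und (init (del m d x) n) = [] := by
      rw [init_del_le m d x n h]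
      unfold und
      have := dropWhile_replicate n []
      rw [List.append_nil] at this
      rw [this]; rfl
    rw [h1]; rfl
  · obtain ⟨k, rfl⟩ : ∃ k, n = m + (k + 1) := ⟨n - m - 1, by omega⟩
    rw [key k]; simp

/-! ### a universal functional -/

/-- One step of the evaluation: the axiom with code `c` is applied. -/
def stepE (xs : List ℕ) (c : ℕ) (out : List ℕ) : List ℕ :=
  bif decide (xs.take (((Encodable.decode c : Option (List ℕ × List ℕ)).getD ([], [])).1.length) =
      ((Encodable.decode c : Option (List ℕ × List ℕ)).getD ([], [])).1) &&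
    decide ((((Encodable.decode c : Option (List ℕ × List ℕ)).getD ([], [])).2).take out.length =
      out) then
    ((Encodable.decode c : Option (List ℕ × List ℕ)).getD ([], [])).2 else out

/-- The universal functional: the list of axioms is on the even places. -/
def evalM (ρ : List ℕ) : List ℕ :=
  (List.range (ρ.length / 2)).foldl
    (fun out s => stepE ((od ρ).take s) (ρ.getD (2 * s) 0) out) []

lemma primrec_stepE : Primrec (fun q : List ℕ × ℕ × List ℕ => stepE q.1 q.2.1 q.2.2) := by
  have ha : Primrec (fun q : List ℕ × ℕ × List ℕ =>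
      (Encodable.decode q.2.1 : Option (List ℕ × List ℕ)).getD ([], [])) :=
    Primrec.option_getD.comp (Primrec.decode.comp (Primrec.fst.comp Primrec.snd))
      (Primrec.const ([], []))
  have h1 : Primrec (fun q : List ℕ × ℕ × List ℕ => decide (q.1.take
      (((Encodable.decode q.2.1 : Option (List ℕ × List ℕ)).getD ([], [])).1.length) =
      ((Encodable.decode q.2.1 : Option (List ℕ × List ℕ)).getD ([], [])).1)) :=
    (PrimrecRel.comp Primrec.eq
      (Primrec.list_take.comp (Primrec.list_length.comp (Primrec.fst.comp ha)) Primrec.fst)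
      (Primrec.fst.comp ha)).decide
  have h2 : Primrec (fun q : List ℕ × ℕ × List ℕ => decide
      ((((Encodable.decode q.2.1 : Option (List ℕ × List ℕ)).getD ([], [])).2).take q.2.2.length =
      q.2.2)) :=
    (PrimrecRel.comp Primrec.eq
      (Primrec.list_take.comp (Primrec.list_length.comp (Primrec.snd.comp Primrec.snd))
        (Primrec.snd.comp ha)) (Primrec.snd.comp Primrec.snd)).decide
  exact Primrec.cond (Primrec.and.comp h1 h2) (Primrec.snd.comp ha)
    (Primrec.snd.comp Primrec.snd)

lemma stepE_prefix (xs : List ℕ) (c : ℕ) (out : List ℕ) : out <+: stepE xs c out := by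
  unfold stepE
  generalize (Encodable.decode c : Option (List ℕ × List ℕ)).getD ([], []) = ax
  by_cases h : xs.take ax.1.length = ax.1 ∧ ax.2.take out.length = out
  · rw [decide_eq_true h.1, decide_eq_true h.2]
    simp only [Bool.and_self, cond_true]
    conv_lhs => rw [← h.2]
    exact List.take_prefix _ _
  · have : (decide (xs.take ax.1.length = ax.1) && decide (ax.2.take out.length = out)) = false := by
      rw [Bool.and_eq_false_iff, decide_eq_false_iff_not, decide_eq_false_iff_not]
      tauto
    rw [this]; exact List.prefix_refl _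

lemma foldl_prefix {β : Type} (f : List ℕ → β → List ℕ) (hf : ∀ o b, o <+: f o b) (l : List β) :
    ∀ o, o <+: l.foldl f o := by
  induction l with
  | nil => intro o; exact List.prefix_refl _
  | cons b l ih => intro o; exact (hf o b).trans (ih _)

lemma foldl_congr' {β : Type} (f g : List ℕ → β → List ℕ) (l : List β) :
    (∀ b ∈ l, ∀ o, f o b = g o b) → ∀ o, l.foldl f o = l.foldl g o := by
  induction l with
  | nil => intro _ o; rfl
  | cons b l ih =>
    intro h o
    simp only [List.foldl_cons]
    rw [h b (by simp), ih (fun b' hb' => h b' (by simp [hb']))]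

lemma isMachine_evalM : IsMachine evalM := by
  refine ⟨?_, ?_⟩
  · have h1 : Primrec od := by
      refine Primrec.list_map (Primrec.list_range.comp ?_) ?_
      · exact Primrec.nat_div.comp Primrec.list_length (Primrec.const 2)
      · exact (Primrec.list_getD 0).comp Primrec.fst
          (Primrec.succ.comp (Primrec.nat_mul.comp (Primrec.const 2) Primrec.snd))
    have h2 : Primrec (fun q : List ℕ × List ℕ × ℕ => ((od q.1).take q.2.2 : List ℕ)) :=
      Primrec.list_take.comp (Primrec.snd.comp Primrec.snd) (h1.comp Primrec.fst)
    have h3 : Primrec (fun q : List ℕ × List ℕ × ℕ => (q.1.getD (2 * q.2.2) 0 : ℕ)) :=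
      (Primrec.list_getD 0).comp Primrec.fst
        (Primrec.nat_mul.comp (Primrec.const 2) (Primrec.snd.comp Primrec.snd))
    have h4 : Primrec (fun q : List ℕ × List ℕ × ℕ => (q.2.1 : List ℕ)) :=
      Primrec.fst.comp Primrec.snd
    have h5 : Primrec (fun q : List ℕ × List ℕ × ℕ =>
        stepE ((od q.1).take q.2.2) (q.1.getD (2 * q.2.2) 0) q.2.1) :=
      Primrec.comp (f := fun q : List ℕ × ℕ × List ℕ => stepE q.1 q.2.1 q.2.2)
        (g := fun q : List ℕ × List ℕ × ℕ =>
          ((od q.1).take q.2.2, q.1.getD (2 * q.2.2) 0, q.2.1)) primrec_stepE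
        (h2.pair (h3.pair h4))
    have h6 : Primrec (fun ρ : List ℕ => List.range (ρ.length / 2)) :=
      Primrec.list_range.comp (Primrec.nat_div.comp Primrec.list_length (Primrec.const 2))
    exact (Primrec.list_foldl (h := fun (ρ : List ℕ) (q : List ℕ × ℕ) =>
        stepE ((od ρ).take q.2) (ρ.getD (2 * q.2) 0) q.1) h6 (Primrec.const []) h5).to_comp
  · intro a b hab
    have hle := hab.length_le
    obtain ⟨k, hk⟩ := Nat.exists_eq_add_of_le (show a.length / 2 ≤ b.length / 2 by omega)
    unfold evalM
    rw [hk, List.range_add, List.foldl_append]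
    have h1 : (List.range (a.length / 2)).foldl
        (fun out s => stepE ((od a).take s) (a.getD (2 * s) 0) out) [] =
        (List.range (a.length / 2)).foldl
        (fun out s => stepE ((od b).take s) (b.getD (2 * s) 0) out) [] := by
      apply foldl_congr'
      intro s hs o
      have hs' := List.mem_range.1 hs
      have e1 : (od a).take s = (od b).take s := by
        have h2 := isMachine_od.mono _ _ hab
        obtain ⟨t, ht⟩ := h2
        rw [← ht, List.take_append_of_le_length]
        simp [od]; omega
      have e2 : a.getD (2 * s) 0 = b.getD (2 * s) 0 := getD_of_isPrefix hab _ _ (by omega)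
      rw [e1, e2]
    rw [h1]
    exact foldl_prefix _ (fun o s => stepE_prefix _ _ _) _ _

/-- The code of a word function. -/
def code (φ : List ℕ → List ℕ) (s : ℕ) : ℕ :=
  Encodable.encode (((Encodable.decode s.unpair.1 : Option (List ℕ)).getD []),
    φ ((Encodable.decode s.unpair.1 : Option (List ℕ)).getD []))

lemma computable_code {φ : List ℕ → List ℕ} (hφ : Computable φ) : Computable (code φ) := by
  have h1 : Computable (fun s : ℕ => (Encodable.decode s.unpair.1 : Option (List ℕ)).getD []) :=
    (Primrec.option_getD.comp (Primrec.decode.comp (Primrec.fst.comp Primrec.unpair))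
      (Primrec.const [])).to_comp
  exact Computable.encode.comp (h1.pair (hφ.comp h1))

lemma maps_evalM {φ : List ℕ → List ℕ} {x y : ℕ → ℕ} (h : Maps φ x y) :
    Maps evalM (pair (code φ) x) y := by
  set G : ℕ → List ℕ := fun n => (List.range n).foldl
    (fun out s => stepE (init x s) (code φ s) out) [] with hG
  have hod := maps_od (code φ) x
  have key : ∀ m, evalM (init (pair (code φ) x) m) = G (m / 2) := by
    intro m
    unfold evalM
    rw [length_init]
    apply foldl_congr'
    intro s hs o
    have hs' := List.mem_range.1 hs
    have e1 : (od (init (pair (code φ) x) m)).take s = init x s := by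
      rw [hod.1 m]
      have h2 : (od (init (pair (code φ) x) m)).length = m / 2 := by simp [od]
      rw [h2, take_init x (by omega)]
    have e2 : (init (pair (code φ) x) m).getD (2 * s) 0 = code φ s := by
      rw [init_getD _ _ _ _ (by omega)]; simp [pair]
    rw [e1, e2]
  have hstep : ∀ s o, stepE (init x s) (code φ s) o =
      if ((init x s).take ((Encodable.decode s.unpair.1 : Option (List ℕ)).getD []).length =
        (Encodable.decode s.unpair.1 : Option (List ℕ)).getD []) ∧
        (φ ((Encodable.decode s.unpair.1 : Option (List ℕ)).getD [])).take o.length = o then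
      φ ((Encodable.decode s.unpair.1 : Option (List ℕ)).getD []) else o := by
    intro s o
    unfold stepE code
    simp only [Encodable.encodek, Option.getD_some]
    generalize (Encodable.decode s.unpair.1 : Option (List ℕ)).getD [] = w
    by_cases h1 : (init x s).take w.length = w <;> by_cases h2 : (φ w).take o.length = o <;>
      simp [h1, h2]
  have hGs : ∀ n, G (n + 1) = stepE (init x n) (code φ n) (G n) := by
    intro n
    simp only [hG, List.range_succ, List.foldl_append, List.foldl_cons, List.foldl_nil]
  have hinv : ∀ n, G n = init y (G n).length := by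
    intro n
    induction n with
    | zero => simp [hG, init]
    | succ n ih =>
      rw [hGs, hstep]
      split_ifs with hc
      · have h3 : ((Encodable.decode n.unpair.1 : Option (List ℕ)).getD []) =
            init x ((Encodable.decode n.unpair.1 : Option (List ℕ)).getD []).length := by
          obtain ⟨hc1, -⟩ := hc
          generalize (Encodable.decode n.unpair.1 : Option (List ℕ)).getD [] = w at hc1 ⊢
          have h4 : w.length ≤ n := by
            have := congrArg List.length hc1
            simp at this; omega
          rw [take_init x h4] at hc1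
          exact hc1.symm
        rw [h3]; exact h.1 _
      · exact ih
  refine ⟨fun m => ?_, fun n => ?_⟩
  · rw [key]; exact hinv _
  · obtain ⟨m, hm⟩ := h.2 n
    set s := Nat.pair (Encodable.encode (init x m)) m with hs
    have hsm : m ≤ s := Nat.right_le_pair _ _
    refine ⟨2 * (s + 1), ?_⟩
    rw [key, show 2 * (s + 1) / 2 = s + 1 by omega, hGs, hstep]
    have hw : (Encodable.decode s.unpair.1 : Option (List ℕ)).getD [] = init x m := by
      rw [hs, Nat.unpair_pair]; simp
    rw [hw]
    have ht : (init x s).take (init x m).length = init x m := by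
      rw [length_init, take_init x hsm]
    by_cases hl : (G s).length ≤ (φ (init x m)).length
    · have h5 : (φ (init x m)).take (G s).length = G s := by
        rw [h.1 m, hinv s]
        simp only [length_init]
        rw [take_init y hl]
      rw [if_pos ⟨ht, h5⟩]; exact hm
    · split_ifs
      · exact hm
      · omega

end Pool.Agent.Q317.TJ
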